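import Pool.Agent.Run7.h487.GO.F

set_option autoImplicit false

/-!
# The number of labelled graded orders with five or more grade levels (MP_ac85ec, Q2)

The definitions (`IsOrder`, `Lt`, `Covers`, `IsGrade`, `GradedWithLevels` and the number `a k n` of
partial orders on `n` labelled elements that are graded with exactly `k` grade levels) are those of the
starting file `FourLevels`.
-/

namespace Pool.Agent.Results.MP_ac85ec_co.FiveOrMoreLevels

open Filter Asymptotics
open Pool.Agent.Results.MP_ac85ec_co.FourLevels (a)

/-- For every fixed `k ≥ 5`,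
`log₂ a_k(n) = n²/4 + (1 - (k - 5)/2) n + O(log n)` as `n → ∞`. -/
theorem result : ∀ k : ℕ, 5 ≤ k →
    (fun n : ℕ => Real.logb 2 (a k n) - ((n : ℝ) ^ 2 / 4 + (1 - ((k : ℝ) - 5) / 2) * n))
      =O[atTop] fun n : ℕ => Real.log n :=
  Run7.h487.GO.main

end Pool.Agent.Results.MP_ac85ec_co.FiveOrMoreLevels
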